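import Pool.Agent.helper36.PP.SpecD
import Pool.Agent.helper74.MQ.MAINB

/-!
# Project pp: (MP_70a088_an): module MAINB
-/

set_option autoImplicit false

open Complex Metric Set Filter Topology MeasureTheory MPS MQ

noncomputable section

namespace PPS

theorem MAINB (hWIN : WIN_stmt) (hNOG : NOG_stmt) (hREP : MQ.REP_stmt) (hNM : MPS.NM_stmt)
    (hHIT : MQ.HIT_stmt) (hLOCZ : MQ.LOCZ_stmt) (hHINJ : MQ.HINJ_stmt) (hHPER : MQ.HPER_stmt)
    (hCONF : MQ.CONF_stmt) (hSELF : MQ.SELF_stmt) (hCOMB : MQ.COMB_stmt) (hTP : MPS.TP_stmt)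
    (hSYM : MQ.SYM_stmt) : MAINB_stmt := by
  intro n d₀ ra R₂ hn hd₀ hra
  obtain ⟨Γ, hΓ, R₁, hR₁, ε₁, hε₁, hwin⟩ := hWIN n d₀ 1000 ra hn hd₀ le_rfl hra
  have hch : ∀ γ : Γ, ∃ R₀ : ℝ, 0 < R₀ ∧
    ∃ ε₀ > (0 : ℝ), ∀ (k : ℕ) [NeZero k] (f : Polynomial ℂ) (b g : ZMod k → ℂ)
      (ψ : ZMod k → ℂ → ℂ) (R ε : ℝ),
    SU n k f b g ψ ra R ε → Fam b g ψ → R₀ ≤ R → ε ≤ ε₀ → d₀ ≤ ‖rho f b / ‖rho f b‖ - 1‖ →
    ∀ (i l : ZMod k) (S : ℂ) (y : ℝ), i ≠ l →
    S.re ≤ (γ / 8 : ℝ) / 10 ^ 6 → ¬ Strip b g (ψ i) (ψ l) S (y - γ / 8) (y + γ / 8) := by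
    intro γ
    have h1 := hΓ γ γ.2
    exact hNOG n d₀ (γ / 8) ra hn hd₀ (by linarith [h1.1]) (by linarith [h1.2]) hra
  choose R₀ hR₀ ε₀ hε₀ hnog using hch
  have hRs : 0 ≤ ∑ γ : Γ, R₀ γ := Finset.sum_nonneg fun γ _ => by linarith [hR₀ γ]
  have hεs : 0 ≤ ∑ γ : Γ, (ε₀ γ)⁻¹ := Finset.sum_nonneg fun γ _ => (inv_pos.2 (hε₀ γ)).le
  have hε₁' : 0 < ε₁⁻¹ := inv_pos.2 hε₁
  set R : ℝ := |R₂| + (ra + 1) + R₁ + ∑ γ : Γ, R₀ γ with hR
  set ε : ℝ := (ε₁⁻¹ + ∑ γ : Γ, (ε₀ γ)⁻¹)⁻¹ with hε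
  have hεpos : 0 < ε := inv_pos.2 (by linarith)
  have hR2 := abs_nonneg R₂
  have hR2' := le_abs_self R₂
  refine ⟨R, by linarith, by linarith, ε, hεpos, ?_⟩
  intro k _ f b g hk hdeg hcyc hbra hinv hrho hd hg hE
  have hεε₁ : ε ≤ ε₁ := by
    rw [hε]
    exact inv_le_of_inv_le₀ hε₁ (by linarith)
  have hRγ : ∀ γ : Γ, R₀ γ ≤ R := by
    intro γ
    have := Finset.single_le_sum (f := R₀) (fun γ _ => by linarith [hR₀ γ]) (Finset.mem_univ γ)
    linarith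
  have hεγ : ∀ γ : Γ, ε ≤ ε₀ γ := by
    intro γ
    have := Finset.single_le_sum (f := fun γ => (ε₀ γ)⁻¹) (fun γ _ => (inv_pos.2 (hε₀ γ)).le)
      (Finset.mem_univ γ)
    rw [hε]
    exact inv_le_of_inv_le₀ (hε₀ γ) (by linarith)
  have hψ := fun i : ZMod k => hNM k b g i hk hcyc.inj
  choose ψ hψm using hψ
  have su : SU n k f b g ψ ra R ε :=
    ⟨hn, hdeg, hk, hcyc, hrho, hψm, hbra, by linarith, by linarith, hinv, hE⟩
  have fam : Fam b g ψ := ⟨hk, hcyc.inj, hg, hψm⟩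
  obtain ⟨γ, hγΓ, N, ce, α, hW⟩ := hwin k f b g ψ R ε su fam (by linarith) hεε₁ hd
  obtain ⟨hγ, hγ1⟩ := hΓ γ hγΓ
  obtain ⟨rep, τ, hRep⟩ := hREP k b g ψ fam γ 1000 N ce α hγ hγ1 le_rfl hW
  have hN2 := hW.hN
  haveI : NeZero N := ⟨by omega⟩
  -- the zeros
  set P := Ppoly b g with hP
  have hP0 : P ≠ 0 := by
    intro h0
    have h1 := (hTP k b g hcyc.inj).2.1 0
    rw [← hP, h0] at h1
    simp at h1
  set m : ℂ → ℕ := fun ζ => P.rootMultiplicity ζ with hm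
  have hz := fun (i : ZMod k) (j : ℤ) =>
    hHIT k b g i (ψ i) (rep i j) (τ i j) hcyc.inj hg (hψm i).pn (hRep.dep i j)
  choose ze hze0 hze using hz
  have hl : ∀ ζ : ℂ, ∃ (h : ℂ → ℂ) (r s : ℝ), P.eval ζ = 0 → LocZ b g ζ (m ζ) h r s := by
    intro ζ
    by_cases h0 : P.eval ζ = 0
    · obtain ⟨h, r, s, hloc⟩ := hLOCZ k b g hcyc.inj hg ζ h0
      exact ⟨h, r, s, fun _ => hloc⟩
    · exact ⟨fun _ => 0, 0, 0, fun h => absurd h h0⟩
  choose h r s hloc using hl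
  have ha : ∀ (i : ZMod k) (j : ℤ), ∃ a : ℕ, a < m (ze i j) + 2 ∧
      Hit b g (ψ i) (rep i j) (τ i j) (ze i j) (m (ze i j)) (h (ze i j)) (r (ze i j))
        ((a : ℕ) : ZMod (m (ze i j) + 2)) := by
    intro i j
    obtain ⟨a, ha⟩ := hze i j _ _ _ (hloc _ (hze0 i j))
    refine ⟨a.val, ZMod.val_lt a, ?_⟩
    rw [ZMod.natCast_zmod_val]
    exact ha
  choose a ha1 ha2 using ha
  -- injectivity
  have hinj : ∀ (i l : ZMod k) (j j' : ℤ), ze i j = ze l j' → a i j = a l j' →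
      i = l ∧ ∃ M : ℤ, rep l j' = rep i j + M * (2 * Real.pi) := by
    intro i l j j' h1 h2
    have h3 := ha2 l j'
    rw [← h1, ← h2] at h3
    exact hHINJ k b g ψ fam i l _ _ _ _ _ _ _ _ _ _ (hloc _ (hze0 i j)) (ha2 i j) h3
  -- adjacency
  have hadj : ∀ (i l : ZMod k) (j j' : ℤ), ze i j = ze l j' →
      a l j' = (a i j + 1) % (m (ze i j) + 2) → i = l := by
    intro i l j j' h1 h2
    by_contra hil
    have h3 := ha2 l j'
    rw [← h1, h2, ZMod.natCast_mod, Nat.cast_add, Nat.cast_one] at h3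
    obtain ⟨w₀, hw0, hst, hw1, -⟩ := hCONF k b g ψ fam γ 1000 N ce α rep τ hγ hγ1 le_rfl hW hRep
      i l j j' _ _ _ _ _ _ (hloc _ (hze0 i j)) (ha2 i j) h3
    have n1 := hRep.near i j
    have g1 := hW.gap (j - 1)
    rw [sub_add_cancel] at g1
    rw [abs_le] at n1 hw1
    have hw2 : γ / 2 ≤ w₀ := by linarith
    have s1 := hRep.small i j
    have s2 := hRep.small l j'
    have hre : ((((τ i j + τ l j' : ℝ) : ℂ) + ((rep i j + rep l j' : ℝ) : ℂ) * I)).re ≤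
        γ / 8 / 10 ^ 6 := by
      simp only [add_re, ofReal_re, mul_re, ofReal_im, I_re, I_im, mul_zero, zero_mul, sub_zero,
        add_zero]
      norm_num at s1 s2 ⊢
      linarith
    refine hnog ⟨γ, hγΓ⟩ k f b g ψ R ε su fam (hRγ _) (hεγ _) hd i l _ (rep i j - w₀ / 2) hil hre ?_
    have h4 := (hSYM k b g i l (ψ i) (ψ l) (hψm i).pn (hψm l).pn _ _ _ hst).2.2.1
    exact h4 _ _ (by linarith) (by linarith)
  have hcomb := hCOMB k N P.roots.toFinset m (fun p => ze p.1 (p.2.val : ℤ))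
    (fun p => a p.1 (p.2.val : ℤ)) hN2
    (fun z hz => by
      rw [Multiset.mem_toFinset, Polynomial.mem_roots hP0] at hz
      exact (Polynomial.rootMultiplicity_pos hP0).2 hz)
    (fun p => by
      rw [Multiset.mem_toFinset, Polynomial.mem_roots hP0]
      exact hze0 _ _)
    (fun p => ha1 _ _)
    (fun p p' h1 h2 => by
      obtain ⟨i, j⟩ := p
      obtain ⟨l, j'⟩ := p'
      obtain ⟨e1, M, e2⟩ := hinj _ _ _ _ h1 h2
      simp only at e1 e2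
      subst e1
      have v1 := ZMod.val_lt j
      have v2 := ZMod.val_lt j'
      rcases lt_trichotomy j.val j'.val with hlt | heq | hgt
      · exact (MAINB_inj hγ le_rfl hW hRep i (j.val : ℤ) (j'.val : ℤ) M (by omega) (by omega)
          e2).elim
      · rw [ZMod.val_injective N heq]
      · refine (MAINB_inj hγ le_rfl hW hRep i (j'.val : ℤ) (j.val : ℤ) (-M) (by omega) (by omega)
          ?_).elim
        push_cast
        linarith)
    (fun p p' h1 h2 => hadj _ _ _ _ h1 h2)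
    (fun i => by
      rintro ⟨h1, h2⟩
      simp only at h1 h2
      have hl1 := hloc _ (hze0 i ((0 : ZMod N).val : ℤ))
      rw [h2] at hl1
      refine hSELF k b g ψ fam γ 1000 N ce α rep τ hγ hγ1 le_rfl hW hRep i _ _ _ _ hl1 ?_
      intro j
      have h3 := ha2 i (((j : ZMod N)).val : ℤ)
      rw [h1 (j : ZMod N), h2] at h3
      have hN0 : (N : ℤ) ≠ 0 := by omega
      have hj : j = (((j : ZMod N)).val : ℤ) + (j / N) * N := by
        rw [ZMod.val_intCast]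
        have := Int.emod_add_mul_ediv j N
        linarith
      have e1 := MAINB_per (hRep.perr i) (((j : ZMod N)).val : ℤ) (j / N)
      have e2 := MAINB_per (P := 0) (f := τ i) (N := N) (fun j => by rw [hRep.pert]; simp)
        (((j : ZMod N)).val : ℤ) (j / N)
      rw [← hj] at e1 e2
      rw [mul_zero, add_zero] at e2
      rw [e1, e2]
      exact ⟨_, hHPER k b g (ψ i) _ _ _ _ _ _ _ _ h3⟩)
  have hsum : ∑ z ∈ P.roots.toFinset, m z ≤ P.natDegree := by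
    have h1 : ∑ z ∈ P.roots.toFinset, m z = P.roots.card := by
      rw [← Multiset.toFinset_sum_count_eq]
      exact Finset.sum_congr rfl fun z _ => (Polynomial.count_roots P).symm
    rw [h1]
    exact Polynomial.card_roots' P
  have hdeg : P.natDegree = 2 * k - 1 := ((hTP k b g hcyc.inj).2.2 hg).1
  omega

end PPS
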